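import Pool.Agent.helper95.FJ.SpecC

/-!
# MP_ad8ced_nt, row fj:CZG: the elements `z` for a given `w` and a given prime
-/

set_option autoImplicit false

open Finset

noncomputable section

namespace Pool.Agent.FJ

open Pool.Agent.FI

/-- Integers of an interval of length `D` in one residue class. -/
theorem CZG_cls (T : Finset ℤ) (g : ℕ) (D : ℝ) (hg : 0 < g) (hD : 0 ≤ D)
    (h1 : ∀ a ∈ T, ∀ b ∈ T, |(a : ℝ) - b| ≤ D) (h2 : ∀ a ∈ T, ∀ b ∈ T, (g : ℤ) ∣ a - b) :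
    (#T : ℝ) ≤ D / g + 1 := by
  have hgR : (0 : ℝ) < g := by exact_mod_cast hg
  by_cases hne : T.Nonempty
  · obtain ⟨a₀, ha₀⟩ : ∃ a₀, a₀ = T.min' hne := ⟨_, rfl⟩
    have ha0 : a₀ ∈ T := by
      rw [ha₀]
      exact Finset.min'_mem _ _
    have hmin : ∀ a ∈ T, a₀ ≤ a := by
      intro a ha
      rw [ha₀]
      exact Finset.min'_le _ _ ha
    have hk : ∀ a ∈ T, ∃ k : ℕ, a = a₀ + g * k := by
      intro a ha
      obtain ⟨k, hk⟩ := h2 a ha a₀ ha0
      have h3 := hmin a ha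
      have hg' : (0 : ℤ) < g := by exact_mod_cast hg
      have hk0 : 0 ≤ k := by
        by_contra h
        have h4 : (g : ℤ) * k < 0 := mul_neg_of_pos_of_neg hg' (not_le.1 h)
        linarith
      refine ⟨k.toNat, ?_⟩
      rw [Int.toNat_of_nonneg hk0]
      linarith
    choose! f hf using hk
    have hcard : #T ≤ #(range (⌊D / g⌋₊ + 1)) := by
      refine Finset.card_le_card_of_injOn f ?_ ?_
      · intro a ha
        have ha' : a ∈ T := ha
        rw [Finset.coe_range, Set.mem_Iio, Nat.lt_succ_iff]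
        refine Nat.le_floor ?_
        rw [le_div_iff₀ hgR]
        have h3 := h1 a ha' a₀ ha0
        have h4 : (a : ℝ) = a₀ + g * f a := by
          exact_mod_cast hf a ha'
        rw [h4] at h3
        have h5 := (abs_le.1 h3).2
        linarith
      · intro a ha b hb hab
        have ha' : a ∈ T := ha
        have hb' : b ∈ T := hb
        have h3 : f a = f b := hab
        rw [hf a ha', hf b hb', h3]
    rw [Finset.card_range] at hcard
    have h3 : (#T : ℝ) ≤ ⌊D / g⌋₊ + 1 := by exact_mod_cast hcard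
    have h4 : (⌊D / g⌋₊ : ℝ) ≤ D / g := Nat.floor_le (by positivity)
    linarith
  · rw [Finset.not_nonempty_iff_eq_empty] at hne
    rw [hne, Finset.card_empty, Nat.cast_zero]
    positivity

/-- Two coordinates. -/
theorem CZG_two (F : Finset (ℤ × ℤ)) (f h : ℤ × ℤ → ℤ) (g₁ g₂ : ℕ) (D₁ D₂ : ℝ) (hg₁ : 0 < g₁) (hg₂ : 0 < g₂)
    (hD₁ : 0 ≤ D₁) (hD₂ : 0 ≤ D₂) (hinj : ∀ z z' : ℤ × ℤ, f z = f z' → h z = h z' → z = z')
    (h1 : ∀ z ∈ F, ∀ z' ∈ F, |(f z : ℝ) - f z'| ≤ D₁) (h1' : ∀ z ∈ F, ∀ z' ∈ F, (g₁ : ℤ) ∣ f z - f z')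
    (h2 : ∀ z ∈ F, ∀ z' ∈ F, f z = f z' → |(h z : ℝ) - h z'| ≤ D₂)
    (h2' : ∀ z ∈ F, ∀ z' ∈ F, f z = f z' → (g₂ : ℤ) ∣ h z - h z') :
    (#F : ℝ) ≤ (D₁ / g₁ + 1) * (D₂ / g₂ + 1) := by
  classical
  have hc : #F = ∑ b ∈ F.image f, #{z ∈ F | f z = b} :=
    Finset.card_eq_sum_card_fiberwise fun z hz => Finset.mem_coe.2 (Finset.mem_image_of_mem f hz)
  have hfib : ∀ b ∈ F.image f, (#{z ∈ F | f z = b} : ℝ) ≤ D₂ / g₂ + 1 := by
    intro b _
    have h3 : #{z ∈ F | f z = b} = #(({z ∈ F | f z = b}).image h) := by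
      rw [Finset.card_image_of_injOn]
      intro z hz z' hz' hh
      have e1 := (Finset.mem_filter.1 (Finset.mem_coe.1 hz)).2
      have e2 := (Finset.mem_filter.1 (Finset.mem_coe.1 hz')).2
      exact hinj z z' (e1.trans e2.symm) hh
    rw [h3]
    refine CZG_cls _ g₂ D₂ hg₂ hD₂ ?_ ?_
    · intro a ha a' ha'
      obtain ⟨z, hz, rfl⟩ := Finset.mem_image.1 ha
      obtain ⟨z', hz', rfl⟩ := Finset.mem_image.1 ha'
      obtain ⟨e1, e2⟩ := Finset.mem_filter.1 hz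
      obtain ⟨e3, e4⟩ := Finset.mem_filter.1 hz'
      exact h2 z e1 z' e3 (e2.trans e4.symm)
    · intro a ha a' ha'
      obtain ⟨z, hz, rfl⟩ := Finset.mem_image.1 ha
      obtain ⟨z', hz', rfl⟩ := Finset.mem_image.1 ha'
      obtain ⟨e1, e2⟩ := Finset.mem_filter.1 hz
      obtain ⟨e3, e4⟩ := Finset.mem_filter.1 hz'
      exact h2' z e1 z' e3 (e2.trans e4.symm)
  have him : (#(F.image f) : ℝ) ≤ D₁ / g₁ + 1 := by
    refine CZG_cls _ g₁ D₁ hg₁ hD₁ ?_ ?_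
    · intro a ha a' ha'
      obtain ⟨z, hz, rfl⟩ := Finset.mem_image.1 ha
      obtain ⟨z', hz', rfl⟩ := Finset.mem_image.1 ha'
      exact h1 z hz z' hz'
    · intro a ha a' ha'
      obtain ⟨z, hz, rfl⟩ := Finset.mem_image.1 ha
      obtain ⟨z', hz', rfl⟩ := Finset.mem_image.1 ha'
      exact h1' z hz z' hz'
  have hcR : (#F : ℝ) = ∑ b ∈ F.image f, (#{z ∈ F | f z = b} : ℝ) := by exact_mod_cast hc
  rw [hcR]
  calc ∑ b ∈ F.image f, (#{z ∈ F | f z = b} : ℝ) ≤ ∑ _b ∈ F.image f, (D₂ / g₂ + 1) := Finset.sum_le_sum hfib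
    _ = (#(F.image f) : ℝ) * (D₂ / g₂ + 1) := by rw [Finset.sum_const, nsmul_eq_mul]
    _ ≤ _ := mul_le_mul_of_nonneg_right him (by positivity)

/-- The elements of `ZD N` have small coordinates. -/
theorem CZG_zd (hFFC : FFC_stmt) (N : ℕ) :
    ∀ z ∈ ZD N, |(z.1 : ℝ)| ≤ 2 * √N ∧ |(z.2 : ℝ)| ≤ 2 * √N := by
  obtain ⟨h1, h2⟩ := hFFC (2 * N)
  intro z hz
  have hz' : z ∈ FF (2 * N) := (Finset.mem_filter.1 hz).1
  obtain ⟨h3, h4⟩ := h2 z hz'
  have h3' : (z.1 : ℝ) ^ 2 ≤ 2 * (2 * N) := by exact_mod_cast h3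
  have h4' : (z.2 : ℝ) ^ 2 ≤ 2 * N := by exact_mod_cast h4
  have hs : √(N : ℝ) ^ 2 = N := Real.sq_sqrt (Nat.cast_nonneg N)
  have hN : (0 : ℝ) ≤ N := Nat.cast_nonneg N
  constructor
  · refine abs_le_of_sq_le_sq ?_ (by positivity)
    rw [mul_pow, hs]
    linarith
  · refine abs_le_of_sq_le_sq ?_ (by positivity)
    rw [mul_pow, hs]
    linarith

open scoped Classical in
theorem CZG (hFFC : FFC_stmt) : CZG_stmt := by
  refine ⟨40, by norm_num, ?_⟩
  intro N x g hN hx hg z₀ hz₀ w hxw hgw Y hY hYx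
  have hgp : Prime (g : ℤ) := Nat.prime_iff_prime_int.1 hg
  have hg0 : 0 < g := hg.pos
  have hgR : (1 : ℝ) ≤ g := by exact_mod_cast hg0
  have hxR : (1 : ℝ) ≤ x := by exact_mod_cast hx
  have hNR : (1 : ℝ) ≤ N := by exact_mod_cast hN
  have hzd := CZG_zd hFFC N
  obtain ⟨S, hS⟩ : ∃ S : ℝ, S = √(N : ℝ) := ⟨_, rfl⟩
  have hS1 : 1 ≤ S := by
    rw [hS]
    exact Real.one_le_sqrt.2 hNR
  have hSS : S ^ 2 = N := by
    rw [hS]
    exact Real.sq_sqrt (Nat.cast_nonneg N)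
  rw [← hS] at hzd ⊢
  have hS0 : 0 < S := by linarith
  obtain ⟨u, hu⟩ : ∃ u, u = w.1 := ⟨_, rfl⟩
  obtain ⟨v, hv⟩ : ∃ v, v = w.2 := ⟨_, rfl⟩
  rw [← hu, ← hv] at hgw
  obtain ⟨F, hF⟩ : ∃ F, F = {z ∈ ZD N | |(ac z w : ℝ)| ≤ Y ∧ (g : ℤ) ∣ lc z w} := ⟨_, rfl⟩
  rw [← hF]
  have hFm : ∀ z ∈ F, (|(z.1 : ℝ)| ≤ 2 * S ∧ |(z.2 : ℝ)| ≤ 2 * S) ∧ |(z.1 : ℝ) * u + 8 * z.2 * v| ≤ Y ∧
      (g : ℤ) ∣ z.1 * v + z.2 * u := by
    intro z hz
    rw [hF, Finset.mem_filter] at hz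
    refine ⟨hzd z hz.1, ?_, ?_⟩
    · have h1 := hz.2.1
      unfold ac at h1
      rw [← hu, ← hv] at h1
      push_cast at h1
      exact h1
    · have h1 := hz.2.2
      unfold lc at h1
      rw [← hu, ← hv] at h1
      exact h1
  have hbd1 : ∀ z ∈ F, ∀ z' ∈ F, |((z.1 : ℤ) : ℝ) - (z'.1 : ℤ)| ≤ 4 * S := by
    intro z hz z' hz'
    have h1 := abs_le.1 (hFm z hz).1.1
    have h2 := abs_le.1 (hFm z' hz').1.1
    rw [abs_le]
    constructor
    · linarith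
    · linarith
  have hbd2 : ∀ z ∈ F, ∀ z' ∈ F, |((z.2 : ℤ) : ℝ) - (z'.2 : ℤ)| ≤ 4 * S := by
    intro z hz z' hz'
    have h1 := abs_le.1 (hFm z hz).1.2
    have h2 := abs_le.1 (hFm z' hz').1.2
    rw [abs_le]
    constructor
    · linarith
    · linarith
  -- `x < 2 √N (|u| + |v|)`
  have hbig : (x : ℝ) < 2 * S * (|(u : ℝ)| + |(v : ℝ)|) := by
    have h1 : (x : ℝ) < (z₀.1 : ℝ) * v + z₀.2 * u := by
      have h2 : (x : ℤ) < z₀.1 * v + z₀.2 * u := by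
        have h3 := hxw
        unfold lc at h3
        rw [← hu, ← hv] at h3
        exact h3
      exact_mod_cast h2
    obtain ⟨h2, h3⟩ := hzd z₀ hz₀
    have h4 : (z₀.1 : ℝ) * v ≤ 2 * S * |(v : ℝ)| := by
      calc (z₀.1 : ℝ) * v ≤ |(z₀.1 : ℝ) * v| := le_abs_self _
        _ = |(z₀.1 : ℝ)| * |(v : ℝ)| := abs_mul _ _
        _ ≤ _ := mul_le_mul_of_nonneg_right h2 (abs_nonneg _)
    have h5 : (z₀.2 : ℝ) * u ≤ 2 * S * |(u : ℝ)| := by
      calc (z₀.2 : ℝ) * u ≤ |(z₀.2 : ℝ) * u| := le_abs_self _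
        _ = |(z₀.2 : ℝ)| * |(u : ℝ)| := abs_mul _ _
        _ ≤ _ := mul_le_mul_of_nonneg_right h3 (abs_nonneg _)
    linarith
  have hD2 : 0 ≤ 8 * S * Y / x := by positivity
  -- the two final estimates
  have hfin1 : (4 * S / ((1 : ℕ) : ℝ) + 1) * (8 * S * Y / x / g + 1) ≤ 40 * (N * Y / (x * g) + S) := by
    have h1 : 4 * S / ((1 : ℕ) : ℝ) + 1 ≤ 5 * S := by
      rw [Nat.cast_one, div_one]
      linarith
    have h2 : 0 ≤ 8 * S * Y / x / g + 1 := by positivity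
    have h3 : 5 * S * (8 * S * Y / x / g + 1) = 40 * (N * Y / (x * g)) + 5 * S := by
      rw [← hSS]
      field_simp
      ring
    have h4 := mul_le_mul_of_nonneg_right h1 h2
    linarith
  have hfin2 : (4 * S / g + 1) * (8 * S * Y / x / ((1 : ℕ) : ℝ) + 1) ≤ 40 * (N * Y / (x * g) + S) := by
    rw [Nat.cast_one, div_one]
    have h1 : 4 * S / g ≤ 4 * S := div_le_self (by positivity) hgR
    have h2 : 8 * S * Y / x ≤ 8 * S := by
      rw [div_le_iff₀ (by positivity)]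
      exact mul_le_mul_of_nonneg_left hYx (by positivity)
    have h3 : (4 * S / g + 1) * (8 * S * Y / x + 1) = 32 * (N * Y / (x * g)) + 4 * S / g + 8 * S * Y / x + 1 := by
      rw [← hSS]
      field_simp
      ring
    rw [h3]
    have h4 : 0 ≤ (N : ℝ) * Y / (x * g) := by positivity
    linarith
  have hcase : (x : ℝ) < 4 * S * |(u : ℝ)| ∨ (x : ℝ) < 4 * S * |(v : ℝ)| := by
    by_contra h
    rw [not_or] at h
    obtain ⟨h1, h2⟩ := h
    rw [not_lt] at h1 h2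
    linarith
  have hinj1 : ∀ z z' : ℤ × ℤ, z.1 = z'.1 → z.2 = z'.2 → z = z' := fun z z' h1 h2 => Prod.ext h1 h2
  have hinj2 : ∀ z z' : ℤ × ℤ, z.2 = z'.2 → z.1 = z'.1 → z = z' := fun z z' h1 h2 => Prod.ext h2 h1
  rcases hcase with hc | hc
  · -- `|u|` is large: the first coordinate is controlled by the second
    have hfb : ∀ z ∈ F, ∀ z' ∈ F, z.2 = z'.2 → |((z.1 : ℤ) : ℝ) - (z'.1 : ℤ)| ≤ 8 * S * Y / x := by
      intro z hz z' hz' he
      have h1 := abs_le.1 (hFm z hz).2.1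
      have h2 := abs_le.1 (hFm z' hz').2.1
      have he' : (z.2 : ℝ) = z'.2 := by exact_mod_cast he
      rw [he'] at h1
      have h3 : |((z.1 : ℝ) - z'.1) * u| ≤ 2 * Y := by
        rw [abs_le]
        constructor
        · linarith
        · linarith
      rw [abs_mul] at h3
      rw [le_div_iff₀ (by linarith)]
      have h4 : |(z.1 : ℝ) - z'.1| * x ≤ |(z.1 : ℝ) - z'.1| * (4 * S * |(u : ℝ)|) :=
        mul_le_mul_of_nonneg_left hc.le (abs_nonneg _)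
      have h5 : |(z.1 : ℝ) - z'.1| * (4 * S * |(u : ℝ)|) = 4 * S * (|(z.1 : ℝ) - z'.1| * |(u : ℝ)|) := by ring
      have h6 : 4 * S * (|(z.1 : ℝ) - z'.1| * |(u : ℝ)|) ≤ 4 * S * (2 * Y) :=
        mul_le_mul_of_nonneg_left h3 (by positivity)
      linarith
    by_cases hgv : (g : ℤ) ∣ v
    · have hgu : ¬ (g : ℤ) ∣ u := fun h => hgw ⟨h, hgv⟩
      refine (CZG_two F Prod.snd Prod.fst g 1 (4 * S) (8 * S * Y / x) hg0 one_pos (by positivity) hD2 hinj2
        hbd2 ?_ hfb (fun z _ z' _ _ => by simp)).trans hfin2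
      intro z hz z' hz'
      have key : ∀ z ∈ F, (g : ℤ) ∣ z.2 := by
        intro z hz
        have h1 := (hFm z hz).2.2
        have h2 : (g : ℤ) ∣ z.2 * u := (Int.dvd_add_right (Dvd.dvd.mul_left hgv _)).1 h1
        exact (hgp.dvd_or_dvd h2).resolve_right hgu
      exact Dvd.dvd.sub (key z hz) (key z' hz')
    · refine (CZG_two F Prod.snd Prod.fst 1 g (4 * S) (8 * S * Y / x) one_pos hg0 (by positivity) hD2 hinj2
        hbd2 (fun z _ z' _ => by simp) hfb ?_).trans hfin1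
      intro z hz z' hz' he
      have h1 := (hFm z hz).2.2
      have h2 := (hFm z' hz').2.2
      have he' : z.2 = z'.2 := he
      rw [he'] at h1
      have h3 : (g : ℤ) ∣ (z.1 - z'.1) * v := by
        have h4 := Dvd.dvd.sub h1 h2
        have h5 : z.1 * v + z'.2 * u - (z'.1 * v + z'.2 * u) = (z.1 - z'.1) * v := by ring
        rwa [h5] at h4
      exact (hgp.dvd_or_dvd h3).resolve_right hgv
  · -- `|v|` is large
    have hfb : ∀ z ∈ F, ∀ z' ∈ F, z.1 = z'.1 → |((z.2 : ℤ) : ℝ) - (z'.2 : ℤ)| ≤ 8 * S * Y / x := by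
      intro z hz z' hz' he
      have h1 := abs_le.1 (hFm z hz).2.1
      have h2 := abs_le.1 (hFm z' hz').2.1
      have he' : (z.1 : ℝ) = z'.1 := by exact_mod_cast he
      rw [he'] at h1
      have h3 : |((z.2 : ℝ) - z'.2) * v| ≤ 2 * Y := by
        rw [abs_le]
        constructor
        · linarith
        · linarith
      rw [abs_mul] at h3
      rw [le_div_iff₀ (by linarith)]
      have h4 : |(z.2 : ℝ) - z'.2| * x ≤ |(z.2 : ℝ) - z'.2| * (4 * S * |(v : ℝ)|) :=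
        mul_le_mul_of_nonneg_left hc.le (abs_nonneg _)
      have h5 : |(z.2 : ℝ) - z'.2| * (4 * S * |(v : ℝ)|) = 4 * S * (|(z.2 : ℝ) - z'.2| * |(v : ℝ)|) := by ring
      have h6 : 4 * S * (|(z.2 : ℝ) - z'.2| * |(v : ℝ)|) ≤ 4 * S * (2 * Y) :=
        mul_le_mul_of_nonneg_left h3 (by positivity)
      linarith
    by_cases hgu : (g : ℤ) ∣ u
    · have hgv : ¬ (g : ℤ) ∣ v := fun h => hgw ⟨hgu, h⟩
      refine (CZG_two F Prod.fst Prod.snd g 1 (4 * S) (8 * S * Y / x) hg0 one_pos (by positivity) hD2 hinj1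
        hbd1 ?_ hfb (fun z _ z' _ _ => by simp)).trans hfin2
      intro z hz z' hz'
      have key : ∀ z ∈ F, (g : ℤ) ∣ z.1 := by
        intro z hz
        have h1 := (hFm z hz).2.2
        have h2 : (g : ℤ) ∣ z.1 * v := (Int.dvd_add_left (Dvd.dvd.mul_left hgu _)).1 h1
        exact (hgp.dvd_or_dvd h2).resolve_right hgv
      exact Dvd.dvd.sub (key z hz) (key z' hz')
    · refine (CZG_two F Prod.fst Prod.snd 1 g (4 * S) (8 * S * Y / x) one_pos hg0 (by positivity) hD2 hinj1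
        hbd1 (fun z _ z' _ => by simp) hfb ?_).trans hfin1
      intro z hz z' hz' he
      have h1 := (hFm z hz).2.2
      have h2 := (hFm z' hz').2.2
      have he' : z.1 = z'.1 := he
      rw [he'] at h1
      have h3 : (g : ℤ) ∣ (z.2 - z'.2) * u := by
        have h4 := Dvd.dvd.sub h1 h2
        have h5 : z'.1 * v + z.2 * u - (z'.1 * v + z'.2 * u) = (z.2 - z'.2) * u := by ring
        rwa [h5] at h4
      exact (hgp.dvd_or_dvd h3).resolve_right hgu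

end Pool.Agent.FJ
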